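import Mathlib

/-! Solving constant coefficient equations `lam w - sum a_ij d_i d_j w = f` on Schwartz functions. -/

noncomputable section

namespace Pool.Agent.HS92

open SchwartzMap LineDeriv Real
open scoped ContDiff SchwartzMap

theorem temp_inv {E : Type*} [NormedAddCommGroup E] [NormedSpace ℝ E] {q : E → ℝ} {lam : ℝ}
    (hl : 0 < lam) (hq : q.HasTemperateGrowth) (h : ∀ x, lam ≤ q x) :
    (fun x => (q x)⁻¹).HasTemperateGrowth := by
  have ht : Set.range q ⊆ Set.Ioi (lam / 2) := by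
    rintro - ⟨y, rfl⟩
    have := h y
    simp only [Set.mem_Ioi]
    linarith
  have hdiff : ContDiffOn ℝ ∞ (fun x : ℝ => x⁻¹) (Set.Ioi (lam / 2)) :=
    contDiffOn_id.inv fun x hx => by
      have : lam / 2 < x := hx
      exact (show (0 : ℝ) < x by linarith).ne'
  have hu : UniqueDiffOn ℝ (Set.Ioi (lam / 2)) := isOpen_Ioi.uniqueDiffOn
  refine Function.HasTemperateGrowth.comp' (g := fun x : ℝ => x⁻¹) ht hu hdiff ?_ hq
  intro N
  refine ⟨0, ∑ k ∈ Finset.range (N + 1), (k.factorial : ℝ) * ((lam / 2)⁻¹) ^ (k + 1),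
    by positivity, ?_⟩
  intro n hn x hx
  have hx1 : lam / 2 < x := hx
  have hx0 : 0 < x := by linarith
  have hc : ContDiffAt ℝ n (fun x : ℝ => x⁻¹) x := contDiffAt_id.inv hx0.ne'
  rw [norm_iteratedFDerivWithin_eq_norm_iteratedDerivWithin,
    iteratedDerivWithin_eq_iteratedDeriv hu hc hx, iteratedDeriv_eq_iterate]
  have e : deriv^[n] (fun x : ℝ => x⁻¹) x = (-1) ^ n * n.factorial * x ^ (-1 - n : ℤ) :=
    iter_deriv_inv n x
  rw [e, pow_zero, mul_one]
  refine le_trans ?_ (Finset.single_le_sum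
    (f := fun k : ℕ => (k.factorial : ℝ) * ((lam / 2)⁻¹) ^ (k + 1))
    (fun k _ => by positivity) (Finset.mem_range.2 (Nat.lt_succ_of_le hn)))
  have e2 : x ^ (-1 - n : ℤ) = (x⁻¹) ^ (n + 1) := by
    rw [inv_pow, ← zpow_natCast, ← zpow_neg]
    congr 1
    push_cast
    ring
  rw [e2, norm_mul, norm_mul, norm_pow, norm_neg, norm_one, one_pow, one_mul,
    Real.norm_of_nonneg (by positivity), Real.norm_of_nonneg (by positivity)]
  have : x⁻¹ ≤ (lam / 2)⁻¹ := inv_anti₀ (by positivity) hx1.le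
  gcongr

section Inner

variable {E : Type*} [NormedAddCommGroup E] [InnerProductSpace ℝ E] [FiniteDimensional ℝ E]
  {ι : Type*} [Fintype ι]

theorem solve_inner (v : ι → E) (a : ι → ι → ℝ) (ha : ∀ x : ι → ℝ, 0 ≤ ∑ i, ∑ j, a i j * x i * x j)
    {lam : ℝ} (hl : 0 < lam) (f : 𝓢(E, ℂ)) :
    ∃ w : 𝓢(E, ℂ), (lam : ℂ) • w - ∑ i, ∑ j, (a i j : ℂ) • ∂_{v i} (∂_{v j} w) = f := by
  borelize E
  obtain ⟨q, hq⟩ : ∃ q : E → ℝ, q = fun x =>
      lam + (2 * π) ^ 2 * ∑ i, ∑ j, a i j * inner ℝ x (v i) * inner ℝ x (v j) := ⟨_, rfl⟩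
  have hqt : q.HasTemperateGrowth := by
    rw [hq]
    fun_prop
  have hql : ∀ x, lam ≤ q x := fun x => by
    rw [hq]
    have := ha fun i => inner ℝ x (v i)
    have h2 : 0 ≤ (2 * π) ^ 2 * ∑ i, ∑ j, a i j * inner ℝ x (v i) * inner ℝ x (v j) := by
      positivity
    simpa using h2
  have hi := temp_inv hl hqt hql
  have key : ∀ w : 𝓢(E, ℂ), (lam : ℂ) • w - ∑ i, ∑ j, (a i j : ℂ) • ∂_{v i} (∂_{v j} w) =
      fourierMultiplierCLM ℂ q w := by
    intro w
    have d2 : ∀ i j, (a i j : ℂ) • ∂_{v i} (∂_{v j} w) = -fourierMultiplierCLM ℂ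
        (fun x => (2 * π) ^ 2 * (a i j * inner ℝ x (v i) * inner ℝ x (v j))) w := by
      intro i j
      have e1 : (fun x : E => (2 * π) ^ 2 * (a i j * inner ℝ x (v i) * inner ℝ x (v j))) =
          ((2 * π) ^ 2 * a i j) • ((fun x : E => inner ℝ x (v i)) * fun x => inner ℝ x (v j)) := by
        ext x
        simp only [Pi.smul_apply, Pi.mul_apply, smul_eq_mul]
        ring
      rw [e1, fourierMultiplierCLM_smul (by fun_prop), ContinuousLinearMap.smul_apply,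
        ← fourierMultiplierCLM_fourierMultiplierCLM_apply (by fun_prop) (by fun_prop),
        lineDeriv_eq_fourierMultiplierCLM, lineDeriv_eq_fourierMultiplierCLM,
        ← fourierMultiplierCLM_ofReal ℂ (g := fun x => inner ℝ x (v i)) (by fun_prop), map_smul,
        fourierMultiplierCLM_ofReal ℂ (g := fun x => inner ℝ x (v i)) (by fun_prop)]
      ext x
      simp only [smul_apply, neg_apply, smul_eq_mul, Complex.real_smul]
      push_cast
      linear_combination (a i j : ℂ) * (2 * π) ^ 2 * (fourierMultiplierCLM ℂ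
        (fun x => inner ℝ x (v i)) (fourierMultiplierCLM ℂ (fun x => inner ℝ x (v j)) w) x) *
        Complex.I_sq
    have e2 : q = (fun _ => lam) + fun x => ∑ i, ∑ j,
        (2 * π) ^ 2 * (a i j * inner ℝ x (v i) * inner ℝ x (v j)) := by
      rw [hq]
      ext x
      simp only [Pi.add_apply, Finset.mul_sum]
    simp only [d2, Finset.sum_neg_distrib, sub_neg_eq_add]
    rw [e2, fourierMultiplierCLM_apply, smulLeftCLM_add (by fun_prop) (by fun_prop),
      ContinuousLinearMap.add_apply, FourierTransform.fourierInv_add, ← fourierMultiplierCLM_apply,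
      ← fourierMultiplierCLM_apply, fourierMultiplierCLM_const,
      fourierMultiplierCLM_sum ℂ (fun i _ => by fun_prop), ContinuousLinearMap.sum_apply]
    congr 1
    refine Finset.sum_congr rfl fun i _ => ?_
    rw [fourierMultiplierCLM_sum ℂ (fun i _ => by fun_prop), ContinuousLinearMap.sum_apply]
  refine ⟨fourierMultiplierCLM ℂ (fun x => (q x)⁻¹) f, ?_⟩
  rw [key, fourierMultiplierCLM_fourierMultiplierCLM_apply hqt hi]
  have e3 : (q * fun x => (q x)⁻¹) = fun _ => (1 : ℝ) := by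
    ext x
    exact mul_inv_cancel₀ (hl.trans_le (hql x)).ne'
  rw [e3, fourierMultiplierCLM_const]
  simp

end Inner

variable {E : Type*} [NormedAddCommGroup E] [NormedSpace ℝ E] [FiniteDimensional ℝ E]
  {ι : Type*} [Fintype ι]

/-- any finite dimensional real normed space -/
theorem solve (v : ι → E) (a : ι → ι → ℝ) (ha : ∀ x : ι → ℝ, 0 ≤ ∑ i, ∑ j, a i j * x i * x j)
    {lam : ℝ} (hl : 0 < lam) (f : 𝓢(E, ℂ)) :
    ∃ w : 𝓢(E, ℂ), (lam : ℂ) • w - ∑ i, ∑ j, (a i j : ℂ) • ∂_{v i} (∂_{v j} w) = f := by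
  obtain ⟨g⟩ : Nonempty (E ≃L[ℝ] EuclideanSpace ℝ (Fin (Module.finrank ℝ E))) :=
    ⟨toEuclidean⟩
  obtain ⟨w, hw⟩ := solve_inner (fun i => g (v i)) a ha hl
    (compCLMOfContinuousLinearEquiv ℂ g.symm f)
  refine ⟨compCLMOfContinuousLinearEquiv ℂ g w, ?_⟩
  have h2 := congrArg (compCLMOfContinuousLinearEquiv ℂ g) hw
  simp only [map_sub, map_smul, map_sum] at h2
  simp only [lineDerivOp_compCLMOfContinuousLinearEquiv]
  rw [h2]
  ext x
  simp

/-- pointwise form -/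
theorem solve_apply (v : ι → E) (a : ι → ι → ℝ)
    (ha : ∀ x : ι → ℝ, 0 ≤ ∑ i, ∑ j, a i j * x i * x j) {lam : ℝ} (hl : 0 < lam) (f : 𝓢(E, ℂ)) :
    ∃ w : 𝓢(E, ℂ), ∀ x, lam * w x -
      ∑ i, ∑ j, a i j * fderiv ℝ (fun y => fderiv ℝ w y (v j)) x (v i) = f x := by
  obtain ⟨w, hw⟩ := solve v a ha hl f
  refine ⟨w, fun x => ?_⟩
  rw [← hw]
  simp only [sub_apply, smul_apply, smul_eq_mul, SchwartzMap.sum_apply]
  rfl

/-- real valued -/
theorem solve_real (v : ι → E) (a : ι → ι → ℝ)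
    (ha : ∀ x : ι → ℝ, 0 ≤ ∑ i, ∑ j, a i j * x i * x j) {lam : ℝ} (hl : 0 < lam) (f : 𝓢(E, ℝ)) :
    ∃ w : 𝓢(E, ℝ), lam • w - ∑ i, ∑ j, a i j • ∂_{v i} (∂_{v j} w) = f := by
  obtain ⟨w, hw⟩ := solve v a ha hl (f.postcompCLM Complex.ofRealCLM)
  have hd : ∀ (m : E) (u : 𝓢(E, ℂ)), ∂_{m} (u.postcompCLM Complex.reCLM) =
      (∂_{m} u).postcompCLM Complex.reCLM := by
    intro m u
    ext x
    rw [lineDerivOp_apply_eq_fderiv, postcompCLM_apply, lineDerivOp_apply_eq_fderiv]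
    have := (Complex.reCLM.hasFDerivAt.comp x (u.hasFDerivAt x)).fderiv
    exact congrArg (fun L : E →L[ℝ] ℝ => L m) this
  refine ⟨w.postcompCLM Complex.reCLM, ?_⟩
  ext x
  have h2 := congrArg (fun u : 𝓢(E, ℂ) => (u x).re) hw
  simp only [hd]
  simp only [sub_apply, smul_apply, smul_eq_mul, SchwartzMap.sum_apply, postcompCLM_apply,
    Complex.reCLM_apply, Complex.ofRealCLM_apply, Complex.sub_re, Complex.re_sum,
    Complex.re_ofReal_mul, Complex.ofReal_re] at h2 ⊢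
  exact h2

/-- real valued, pointwise form -/
theorem solve_real_apply (v : ι → E) (a : ι → ι → ℝ)
    (ha : ∀ x : ι → ℝ, 0 ≤ ∑ i, ∑ j, a i j * x i * x j) {lam : ℝ} (hl : 0 < lam) (f : 𝓢(E, ℝ)) :
    ∃ w : 𝓢(E, ℝ), ∀ x, lam * w x -
      ∑ i, ∑ j, a i j * fderiv ℝ (fun y => fderiv ℝ w y (v j)) x (v i) = f x := by
  obtain ⟨w, hw⟩ := solve_real v a ha hl f
  refine ⟨w, fun x => ?_⟩
  rw [← hw]
  simp only [sub_apply, smul_apply, smul_eq_mul, SchwartzMap.sum_apply]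
  rfl

end Pool.Agent.HS92
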