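import Mathlib

/-! Directional derivatives, the maximum principle and the pointwise Bernstein estimate. -/

noncomputable section

namespace Pool.Agent.HS92

open Set Filter Topology Metric
open scoped ContDiff

variable {E : Type} [NormedAddCommGroup E] [NormedSpace ℝ E] {ι : Type} [Fintype ι]

/-- derivative along `w` -/
def D {F : Type} [NormedAddCommGroup F] [NormedSpace ℝ F] (w : E) (f : E → F) : E → F :=
  fun x => fderiv ℝ f x w

section Gen

variable {F : Type} [NormedAddCommGroup F] [NormedSpace ℝ F] {f g : E → F} {x : E}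

theorem D_congr (w : E) (h : f =ᶠ[𝓝 x] g) : D w f =ᶠ[𝓝 x] D w g :=
  h.fderiv.mono fun y hy => by simp only [D]; rw [hy]

theorem smD (w : E) (hf : ContDiffAt ℝ ∞ f x) : ContDiffAt ℝ ∞ (D w f) x :=
  (hf.fderiv_right (m := ∞) (by simp)).clm_apply contDiffAt_const

theorem ev (hf : ContDiffAt ℝ ∞ f x) : ∀ᶠ y in 𝓝 x, DifferentiableAt ℝ f y :=
  ((hf.of_le (m := 1) (by simp)).eventually (by simp)).mono fun _ h => h.differentiableAt (by simp)

theorem df (hf : ContDiffAt ℝ ∞ f x) : DifferentiableAt ℝ f x := hf.differentiableAt (by simp)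

theorem DD_eq (u w : E) (hf : ContDiffAt ℝ ∞ f x) :
    D u (D w f) x = fderiv ℝ (fderiv ℝ f) x u w := by
  have h : DifferentiableAt ℝ (fderiv ℝ f) x :=
    df (hf.fderiv_right (m := ∞) (by simp))
  have := fderiv_clm_apply h (differentiableAt_const w)
  show fderiv ℝ (fun y => fderiv ℝ f y w) x u = _
  rw [this]
  simp

theorem DD_comm (u w : E) (hf : ContDiffAt ℝ ∞ f x) : D u (D w f) x = D w (D u f) x := by
  rw [DD_eq u w hf, DD_eq w u hf]
  exact (hf.isSymmSndFDerivAt (by simp; exact WithTop.coe_le_coe.2 le_top)).eq u w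

theorem D_add (w : E) (hf : DifferentiableAt ℝ f x) (hg : DifferentiableAt ℝ g x) :
    D w (fun y => f y + g y) x = D w f x + D w g x := by
  simp only [D]
  rw [fderiv_fun_add hf hg]
  rfl

theorem D_sum {σ : Type} (s : Finset σ) {p : σ → E → F} (w : E)
    (hp : ∀ i ∈ s, DifferentiableAt ℝ (p i) x) :
    D w (fun y => ∑ i ∈ s, p i y) x = ∑ i ∈ s, D w (p i) x := by
  simp only [D]
  rw [fderiv_fun_sum hp]
  simp

theorem D_const (w : E) (c : F) : D w (fun _ : E => c) x = 0 := by simp [D]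

end Gen

section Alg

variable {A : Type} [NormedCommRing A] [NormedAlgebra ℝ A] {f g : E → A} {x : E}

theorem D_mul (w : E) (hf : DifferentiableAt ℝ f x) (hg : DifferentiableAt ℝ g x) :
    D w (fun y => f y * g y) x = f x * D w g x + D w f x * g x := by
  simp only [D]
  rw [fderiv_fun_mul hf hg]
  simp [mul_comm]

theorem DD_mul (u w : E) (hf : ContDiffAt ℝ ∞ f x) (hg : ContDiffAt ℝ ∞ g x) :
    D u (D w fun y => f y * g y) x =
      f x * D u (D w g) x + D u f x * D w g x + D w f x * D u g x + D u (D w f) x * g x := by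
  have e : D w (fun y => f y * g y) =ᶠ[𝓝 x] fun y => f y * D w g y + D w f y * g y := by
    filter_upwards [ev hf, ev hg] with y h1 h2 using D_mul w h1 h2
  rw [(D_congr u e).eq_of_nhds, D_add u ((df hf).fun_mul (df (smD w hg)))
    ((df (smD w hf)).fun_mul (df hg)), D_mul u (df hf) (df (smD w hg)), D_mul u (df (smD w hf)) (df hg)]
  ring

end Alg

theorem test2 {φ φ1 : ℝ → ℝ} {c : ℝ} (h1 : ∀ᶠ s in 𝓝 (0 : ℝ), HasDerivAt φ (φ1 s) s)
    (h2 : HasDerivAt φ1 c 0) (hm : IsLocalMax φ 0) : c ≤ 0 := by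
  by_contra hc
  have e : deriv φ =ᶠ[𝓝 0] φ1 := h1.mono fun s hs => hs.deriv
  have e2 : deriv (deriv φ) 0 = c := by rw [e.deriv_eq, h2.deriv]
  have h3 := isLocalMin_of_deriv_deriv_pos (e2 ▸ not_le.1 hc) hm.deriv_eq_zero
    h1.self_of_nhds.continuousAt
  have h4 : φ =ᶠ[𝓝 0] fun _ => φ 0 := (h3.and hm).mono fun s hs => le_antisymm hs.2 hs.1
  rw [h4.deriv.deriv_eq] at e2
  simp at e2
  exact hc e2.ge

theorem max_dir {f : E → ℝ} {x : E} (hf : ContDiffAt ℝ ∞ f x) (hm : IsLocalMax f x) (w : E) :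
    D w (D w f) x ≤ 0 := by
  have hl : ∀ s : ℝ, HasDerivAt (fun s : ℝ => x + s • w) w s := fun s => by
    simpa using ((hasDerivAt_id s).smul_const w).const_add x
  have h0 : x + (0 : ℝ) • w = x := by simp
  have ht : Tendsto (fun s : ℝ => x + s • w) (𝓝 0) (𝓝 x) := by
    have := (hl 0).continuousAt.tendsto
    rwa [h0] at this
  refine test2 (φ := fun s => f (x + s • w)) (φ1 := fun s => D w f (x + s • w)) ?_ ?_ ?_
  · filter_upwards [ht.eventually (ev hf)] with s hs
    exact hs.hasFDerivAt.comp_hasDerivAt s (hl s)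
  · have h1 : HasFDerivAt (D w f) (fderiv ℝ (D w f) x) (x + (0 : ℝ) • w) := by
      rw [h0]
      exact (df (smD w hf)).hasFDerivAt
    exact h1.comp_hasDerivAt (0 : ℝ) (hl 0)
  · have : IsLocalMax f (x + (0 : ℝ) • w) := by rw [h0]; exact hm
    exact this.comp_continuous (g := fun s : ℝ => x + s • w) (hl 0).continuousAt

theorem max_D {f : E → ℝ} {x : E} (hm : IsLocalMax f x) (w : E) : D w f x = 0 := by
  simp only [D]
  rw [hm.fderiv_eq_zero]
  rfl

/-- the maximum principle at a point -/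
theorem maxp (v : ι → E) {f : E → ℝ} {x : E} (hf : ContDiffAt ℝ ∞ f x) (hm : IsLocalMax f x)
    (a : ι → ι → ℝ) (ha : ∀ ξ : ι → ℝ, 0 ≤ ∑ i, ∑ j, a i j * ξ i * ξ j) :
    ∑ i, ∑ j, a i j * D (v i) (D (v j) f) x ≤ 0 := by
  classical
  have hp : (Matrix.of fun i j => a i j + a j i).PosSemidef := by
    rw [Matrix.posSemidef_iff_dotProduct_mulVec]
    refine ⟨?_, fun ξ => ?_⟩
    · ext i j
      simp [add_comm]
    · have e : star ξ ⬝ᵥ (Matrix.of fun i j => a i j + a j i).mulVec ξ =
          ∑ i, ∑ j, a i j * ξ i * ξ j + ∑ i, ∑ j, a j i * ξ j * ξ i := by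
        simp only [dotProduct, Matrix.mulVec, Matrix.of_apply, star_trivial, Finset.mul_sum,
          ← Finset.sum_add_distrib]
        exact Finset.sum_congr rfl fun i _ => Finset.sum_congr rfl fun j _ => by ring
      rw [e, Finset.sum_comm (f := fun i j => a j i * ξ j * ξ i)]
      exact add_nonneg (ha ξ) (ha ξ)
  obtain ⟨m, b, hb⟩ := Matrix.posSemidef_iff_eq_sum_vecMulVec.1 hp
  have hb' : ∀ i j, a i j + a j i = ∑ k, b k i * b k j := fun i j => by
    have := congrFun (congrFun hb i) j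
    simpa [Matrix.sum_apply, Matrix.vecMulVec_apply] using this
  have h1 : ∀ k, ∑ i, ∑ j, b k i * b k j * D (v i) (D (v j) f) x ≤ 0 := fun k => by
    have := max_dir hf hm (∑ i, b k i • v i)
    rw [DD_eq _ _ hf] at this
    simp only [map_sum, map_smul, ContinuousLinearMap.sum_apply, ContinuousLinearMap.smul_apply,
      smul_eq_mul, Finset.mul_sum] at this
    rw [Finset.sum_comm] at this
    refine le_trans (le_of_eq ?_) this
    exact Finset.sum_congr rfl fun i _ => Finset.sum_congr rfl fun j _ => by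
      rw [DD_eq _ _ hf]; ring
  have h2 : 2 * ∑ i, ∑ j, a i j * D (v i) (D (v j) f) x =
      ∑ k, ∑ i, ∑ j, b k i * b k j * D (v i) (D (v j) f) x := by
    rw [Finset.sum_comm (γ := Fin m)]
    simp only [Finset.sum_comm (γ := Fin m), ← Finset.sum_mul, ← hb', add_mul,
      Finset.sum_add_distrib]
    rw [two_mul]
    congr 1
    rw [Finset.sum_comm]
    exact Finset.sum_congr rfl fun i _ => Finset.sum_congr rfl fun j _ => by
      rw [DD_comm _ _ hf]
  have h3 := Finset.sum_nonpos (s := Finset.univ) fun k _ => h1 k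
  linarith

end Pool.Agent.HS92
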