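import Pool.Agent.Lib.HS92.T2

/-! The global estimate for variable coefficients, by freezing. -/

noncomputable section

namespace Pool.Agent.HS92

open Set Filter Topology
open scoped ContDiff

set_option linter.unusedSectionVars false

variable {E : Type} [NormedAddCommGroup E] [NormedSpace ℝ E] [FiniteDimensional ℝ E]
  {ι : Type} [Fintype ι] {F : Type} [NormedAddCommGroup F] [NormedSpace ℝ F]

/-- bound `s` for the values and `h` for the Hoelder quotient -/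
def HB (f : E → F) (s h : ℝ) : Prop :=
  (∀ x, ‖f x‖ ≤ s) ∧ ∀ x y, ‖f x - f y‖ ≤ h * √‖x - y‖

/-- two derivatives -/
def H2 (b : ι → E) (f : E → F) (M : ℝ) : Prop :=
  HB f M M ∧ ∀ i, HB (D (b i) f) M M ∧ ∀ j, HB (D (b j) (D (b i) f)) M M

/-- one derivative -/
def H1 (b : ι → E) (f : E → F) (M : ℝ) : Prop := HB f M M ∧ ∀ i, HB (D (b i) f) M M

theorem HB.nonneg {f : E → F} {s h : ℝ} (hf : HB f s h) : 0 ≤ s := (norm_nonneg _).trans (hf.1 0)

theorem HB.mono {f : E → F} {s h s' h' : ℝ} (hf : HB f s h) (h1 : s ≤ s') (h2 : h ≤ h') :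
    HB f s' h' :=
  ⟨fun x => (hf.1 x).trans h1, fun x y => (hf.2 x y).trans (by gcongr)⟩

theorem HB.add {f g : E → F} {s h s' h' : ℝ} (hf : HB f s h) (hg : HB g s' h') :
    HB (fun x => f x + g x) (s + s') (h + h') := by
  refine ⟨fun x => (norm_add_le _ _).trans (add_le_add (hf.1 x) (hg.1 x)), fun x y => ?_⟩
  rw [add_sub_add_comm, add_mul]
  exact (norm_add_le _ _).trans (add_le_add (hf.2 x y) (hg.2 x y))

theorem HB.sum {σ : Type} (t : Finset σ) {f : σ → E → F} {s h : σ → ℝ}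
    (hf : ∀ i ∈ t, HB (f i) (s i) (h i)) :
    HB (fun x => ∑ i ∈ t, f i x) (∑ i ∈ t, s i) (∑ i ∈ t, h i) := by
  refine ⟨fun x => (norm_sum_le _ _).trans (Finset.sum_le_sum fun i hi => (hf i hi).1 x),
    fun x y => ?_⟩
  rw [← Finset.sum_sub_distrib, Finset.sum_mul]
  exact (norm_sum_le _ _).trans (Finset.sum_le_sum fun i hi => (hf i hi).2 x y)

theorem HB.smul {f : E → ℝ} {g : E → F} {s h s' h' : ℝ} (hf : HB f s h) (hg : HB g s' h')
    (hh : 0 ≤ h) : HB (fun x => f x • g x) (s * s') (s * h' + h * s') := by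
  have h0 := hf.nonneg
  refine ⟨fun x => ?_, fun x y => ?_⟩
  · rw [norm_smul]
    exact mul_le_mul (hf.1 x) (hg.1 x) (norm_nonneg _) h0
  · have e : f x • g x - f y • g y = f x • (g x - g y) + (f x - f y) • g y := by
      rw [smul_sub, sub_smul]; abel
    rw [e]
    refine (norm_add_le _ _).trans ?_
    rw [norm_smul, norm_smul]
    have h1 := mul_le_mul (hf.1 x) (hg.2 x y) (norm_nonneg _) h0
    have h2 := mul_le_mul (hf.2 x y) (hg.1 y) (norm_nonneg _) (by positivity)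
    nlinarith

theorem HB.const (c : F) : HB (fun _ : E => c) ‖c‖ 0 := ⟨fun _ => le_rfl, fun _ _ => by simp⟩

theorem HB.shift {f : E → F} {s h : ℝ} (hf : HB f s h) (z : E) : HB (fun x => f (x + z)) s h :=
  ⟨fun x => hf.1 _, fun x y => by simpa using hf.2 (x + z) (y + z)⟩

theorem D_shift (f : E → F) (u z : E) : D u (fun x => f (x + z)) = fun x => D u f (x + z) := by
  funext x
  simp only [D]
  rw [fderiv_comp_add_right]

theorem smD' {f : E → F} (hf : ContDiff ℝ ∞ f) (u : E) : ContDiff ℝ ∞ (D u f) :=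
  contDiff_iff_contDiffAt.2 fun _ => smD u hf.contDiffAt

theorem landau {f : E → F} (hf : ContDiff ℝ ∞ f) (u : E) {A N h : ℝ} (hA : ∀ x, ‖f x‖ ≤ A)
    (hN0 : 0 ≤ N) (hN : ∀ x y, ‖D u f x - D u f y‖ ≤ N * √‖x - y‖) (hh : 0 < h) (x : E) :
    ‖D u f x‖ ≤ 2 * A / h + N * √(h * ‖u‖) := by
  have hl : ∀ s : ℝ, HasDerivAt (fun s : ℝ => x + s • u) u s := fun s => by
    simpa using ((hasDerivAt_id s).smul_const u).const_add x
  have h1 := norm_image_sub_le_of_norm_deriv_le_segment' (a := 0) (b := h)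
    (f := fun s : ℝ => f (x + s • u) - s • D u f x) (f' := fun s => D u f (x + s • u) - D u f x)
    (C := N * √(h * ‖u‖)) (fun s _ => by
      have h2 := ((hf.differentiable (by simp)) (x + s • u)).hasFDerivAt.comp_hasDerivAt s (hl s)
      have h3 : HasDerivAt (fun s : ℝ => s • D u f x) (D u f x) s := by
        simpa using (hasDerivAt_id s).smul_const (D u f x)
      exact (h2.sub h3).hasDerivWithinAt) (fun s hs => by
      refine (hN _ _).trans ?_
      rw [add_sub_cancel_left, norm_smul, Real.norm_of_nonneg hs.1]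
      gcongr
      exact hs.2.le) h ⟨hh.le, le_rfl⟩
  simp only [zero_smul, add_zero, sub_zero] at h1
  have h4 : h • D u f x = (f (x + h • u) - f x) - (f (x + h • u) - h • D u f x - f x) := by abel
  have h5 : h * ‖D u f x‖ ≤ 2 * A + N * √(h * ‖u‖) * h := by
    calc h * ‖D u f x‖ = ‖h • D u f x‖ := by rw [norm_smul, Real.norm_of_nonneg hh.le]
      _ ≤ ‖f (x + h • u) - f x‖ + ‖f (x + h • u) - h • D u f x - f x‖ :=
          (congrArg norm h4).trans_le (norm_sub_le _ _)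
      _ ≤ (A + A) + N * √(h * ‖u‖) * h :=
          add_le_add ((norm_sub_le (f (x + h • u)) (f x)).trans (add_le_add (hA _) (hA _))) h1
      _ = _ := by ring
  rw [div_add' _ _ _ hh.ne', le_div_iff₀ hh]
  linarith

theorem landau' (u : ι → E) {ε : ℝ} (hε : 0 < ε) : ∃ C, 0 ≤ C ∧ ∀ (f : E → F) (A N : ℝ) (i : ι),
    ContDiff ℝ ∞ f → (∀ x, ‖f x‖ ≤ A) → 0 ≤ N →
    (∀ x y, ‖D (u i) f x - D (u i) f y‖ ≤ N * √‖x - y‖) → ∀ x, ‖D (u i) f x‖ ≤ ε * N + C * A := by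
  have hβ : 0 < 1 + ∑ i, ‖u i‖ := by positivity
  refine ⟨2 / (ε ^ 2 / (1 + ∑ i, ‖u i‖)), by positivity, fun f A N i hf hA hN0 hN x => ?_⟩
  refine (landau hf (u i) hA hN0 hN (h := ε ^ 2 / (1 + ∑ i, ‖u i‖)) (by positivity) x).trans ?_
  have h1 : ‖u i‖ ≤ 1 + ∑ i, ‖u i‖ :=
    (Finset.single_le_sum (f := fun i => ‖u i‖) (fun _ _ => norm_nonneg _)
      (Finset.mem_univ i)).trans (by linarith)
  have h2 : √(ε ^ 2 / (1 + ∑ i, ‖u i‖) * ‖u i‖) ≤ ε := by
    rw [Real.sqrt_le_left hε.le, div_mul_eq_mul_div, div_le_iff₀ hβ]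
    gcongr
  have h3 := mul_le_mul_of_nonneg_left h2 hN0
  have h4 : 2 * A / (ε ^ 2 / (1 + ∑ i, ‖u i‖)) = 2 / (ε ^ 2 / (1 + ∑ i, ‖u i‖)) * A := by ring
  linarith

theorem lip (b : Module.Basis ι ℝ E) : ∃ c, 0 ≤ c ∧ ∀ (f : E → F) (A A1 : ℝ), ContDiff ℝ ∞ f →
    (∀ x, ‖f x‖ ≤ A) → 0 ≤ A1 → (∀ i x, ‖D (b i) f x‖ ≤ A1) → HB f A (2 * A + c * A1) := by
  let co : ι → E →L[ℝ] ℝ := fun i => LinearMap.toContinuousLinearMap (b.coord i)
  refine ⟨∑ i, ‖co i‖, by positivity, fun f A A1 hf hA h1 hD => ⟨hA, fun x y => ?_⟩⟩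
  have h0 : 0 ≤ A := (norm_nonneg _).trans (hA 0)
  have hc : 0 ≤ (∑ i, ‖co i‖) * A1 := by positivity
  have hn : ∀ z, ‖fderiv ℝ f z‖ ≤ (∑ i, ‖co i‖) * A1 := fun z => by
    refine ContinuousLinearMap.opNorm_le_bound _ hc fun w => ?_
    conv_lhs => rw [← b.sum_repr w, map_sum]
    rw [Finset.sum_mul, Finset.sum_mul]
    refine (norm_sum_le _ _).trans (Finset.sum_le_sum fun i _ => ?_)
    rw [map_smul, norm_smul]
    calc ‖co i w‖ * ‖D (b i) f z‖ ≤ ‖co i‖ * ‖w‖ * A1 := by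
          gcongr
          · exact (co i).le_opNorm w
          · exact hD i z
      _ = _ := by ring
  by_cases h : 1 ≤ ‖x - y‖
  · have h2 : 1 ≤ √‖x - y‖ := Real.one_le_sqrt.2 h
    have h3 := (norm_sub_le (f x) (f y)).trans (add_le_add (hA x) (hA y))
    nlinarith
  · have h2 := convex_univ.norm_image_sub_le_of_norm_fderiv_le (𝕜 := ℝ)
      (fun z _ => (hf.differentiable (by simp)) z) (fun z _ => hn z) (mem_univ y) (mem_univ x)
    have h3 : ‖x - y‖ ≤ √‖x - y‖ :=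
      Real.le_sqrt_of_sq_le (by nlinarith [norm_nonneg (x - y)])
    have h4 := mul_le_mul_of_nonneg_left h3 hc
    have h5 : 0 ≤ A * √‖x - y‖ := by positivity
    nlinarith

/-- interpolation -/
theorem intp (b : Module.Basis ι ℝ E) {ε : ℝ} (hε : 0 < ε) : ∃ C, 0 ≤ C ∧
    ∀ (w : E → F) (A N : ℝ), ContDiff ℝ ∞ w → (∀ x, ‖w x‖ ≤ A) → H2 b w N →
      H1 b w (ε * N + C * A) ∧ ∀ i j x, ‖D (b j) (D (b i) w) x‖ ≤ ε * N + C * A := by
  obtain ⟨c, hc, L⟩ := lip (F := F) b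
  obtain ⟨δ, hδ, h1⟩ : ∃ δ, 0 < δ ∧ (2 + c) * δ = ε := ⟨ε / (2 + c), by positivity, by field_simp⟩
  obtain ⟨C2, hC2, L2⟩ := landau' (F := F) b (half_pos hδ)
  obtain ⟨η, hη, h2⟩ : ∃ η, 0 < η ∧ (1 + C2) * η = δ / 2 :=
    ⟨δ / 2 / (1 + C2), by positivity, by field_simp⟩
  obtain ⟨C1, hC1, L1⟩ := landau' (F := F) b hη
  refine ⟨2 + (2 + c) * ((1 + C2) * C1), by positivity, fun w A N hw hA hN => ?_⟩
  have hN0 := hN.1.nonneg
  have hA0 : 0 ≤ A := (norm_nonneg _).trans (hA 0)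
  obtain ⟨B, hB⟩ : ∃ B, B = δ * N + (1 + C2) * C1 * A := ⟨_, rfl⟩
  have a1 : ∀ i x, ‖D (b i) w x‖ ≤ η * N + C1 * A := fun i =>
    L1 w A N i hw hA hN0 (hN.2 i).1.2
  have p1 : 0 ≤ C2 * η * N := by positivity
  have p2 : 0 ≤ η * N := by positivity
  have p3 : 0 ≤ C2 * C1 * A := by positivity
  have p4 : 0 ≤ C1 * A := by positivity
  have p5 : (1 + C2) * η * N = δ / 2 * N := by rw [h2]
  have a2 : ∀ i j x, ‖D (b j) (D (b i) w) x‖ ≤ B := fun i j x => by
    have := L2 _ _ N j (smD' hw _) (a1 i) hN0 ((hN.2 i).2 j).2 x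
    nlinarith
  have a3 : ∀ i x, ‖D (b i) w x‖ ≤ B := fun i x => by
    have := a1 i x
    nlinarith
  have hB0 : 0 ≤ B := by rw [hB]; positivity
  have e : ε * N + (2 + (2 + c) * ((1 + C2) * C1)) * A = 2 * A + (2 + c) * B := by
    rw [hB, ← h1]; ring
  have p6 : 0 ≤ c * B := by positivity
  rw [e]
  refine ⟨⟨(L w A B hw hA hB0 a3).mono (by nlinarith) (by nlinarith), fun i =>
    (L _ B B (smD' hw _) (a3 i) hB0 (a2 i)).mono (by nlinarith) (by nlinarith)⟩, fun i j x => ?_⟩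
  have := a2 i j x
  nlinarith

theorem D_clm {G : Type} [NormedAddCommGroup G] [NormedSpace ℝ G] (g : F →L[ℝ] G) {w : E → F}
    (hw : ContDiff ℝ ∞ w) (u : E) : D u (fun x => g (w x)) = fun x => g (D u w x) := by
  funext x
  have := g.hasFDerivAt.comp x ((hw.differentiable (by simp)) x).hasFDerivAt
  exact congrArg (fun L : E →L[ℝ] G => L u) this.fderiv

/-- flat estimate for vector valued functions -/
theorem t2v (b : Module.Basis ι ℝ E) {κ : ℝ} (hκ : 0 < κ) (K : ℝ) :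
    ∃ C, 0 ≤ C ∧ ∀ (a : ι → ι → ℝ) (w : E → F) (M B : ℝ),
      (∀ ξ : ι → ℝ, κ * ∑ i, ξ i ^ 2 ≤ ∑ i, ∑ j, a i j * ξ i * ξ j) → (∀ i j, |a i j| ≤ K) →
      ContDiff ℝ ∞ w → (∀ x, ‖w x‖ ≤ B) → 0 ≤ M →
      (∀ x y, ‖∑ i, ∑ j, a i j • D (b i) (D (b j) w) x - ∑ i, ∑ j, a i j • D (b i) (D (b j) w) y‖
        ≤ M * √‖x - y‖) →
      ∀ i j x y, ‖D (b i) (D (b j) w) x - D (b i) (D (b j) w) y‖ ≤ C * M * √‖x - y‖ := by
  obtain ⟨C, hC, H⟩ := t2 b hκ K
  refine ⟨C, hC, fun a w M B ha hK hw hB hM hH i j x y => ?_⟩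
  obtain ⟨g, hg, e⟩ := exists_dual_vector'' ℝ (D (b i) (D (b j) w) x - D (b i) (D (b j) w) y)
  have hle : ∀ z, |g z| ≤ ‖z‖ := fun z => (g.le_opNorm z).trans (by
    nlinarith [norm_nonneg z])
  have hD : ∀ i j, D (b i) (D (b j) fun x => g (w x)) = fun x => g (D (b i) (D (b j) w) x) :=
    fun i j => by rw [D_clm g hw, D_clm g (smD' hw _)]
  have := H a (fun x => g (w x)) M B ha hK (g.contDiff.comp hw) (fun x => (hle _).trans (hB x)) hM
    (fun x y => by
      refine le_trans (le_of_eq ?_) ((hle _).trans (hH x y))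
      simp only [hD, map_sub, map_sum, map_smul, smul_eq_mul]) i j x y
  rw [hD] at this
  simp only [← map_sub] at this
  rw [e] at this
  exact (le_abs_self _).trans this

theorem DD_smul {φ : E → ℝ} {w : E → F} (hφ : ContDiff ℝ ∞ φ) (hw : ContDiff ℝ ∞ w) (u v x : E) :
    D u (D v fun y => φ y • w y) x = φ x • D u (D v w) x + (D u φ x • D v w x +
      (D v φ x • D u w x + D u (D v φ) x • w x)) := by
  have d1 : ∀ {φ : E → ℝ} {w : E → F}, ContDiff ℝ ∞ φ → ContDiff ℝ ∞ w → ∀ u,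
      D u (fun y => φ y • w y) = fun y => φ y • D u w y + D u φ y • w y := by
    intro φ w hφ hw u
    funext y
    simp only [D]
    rw [fderiv_fun_smul ((hφ.differentiable (by simp)) y) ((hw.differentiable (by simp)) y)]
    simp
  have h := D_add (f := fun y => φ y • D v w y) (g := fun y => D v φ y • w y) (x := x) u
    (df (hφ.smul (smD' hw v)).contDiffAt) (df ((smD' hφ v).smul hw).contDiffAt)
  rw [d1 hφ hw, h, d1 hφ (smD' hw v), d1 (smD' hφ v) hw]
  simp only [add_assoc]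

theorem bump (b : Module.Basis ι ℝ E) {r : ℝ} (hr : 0 < r) : ∃ (φ : E → ℝ) (P : ℝ),
    ContDiff ℝ ∞ φ ∧ H2 b φ P ∧ (∀ x, |φ x| ≤ 1) ∧ (∀ x, 2 * r ≤ ‖x‖ → φ x = 0) ∧
      ∀ x, ‖x‖ < r → φ =ᶠ[𝓝 x] 1 := by
  let f : ContDiffBump (0 : E) := ⟨r, 2 * r, hr, by linarith⟩
  obtain ⟨c, hc, L⟩ := lip (F := ℝ) b
  have key : ∀ g : E → ℝ, ContDiff ℝ ∞ g → HasCompactSupport g → ∃ P, ∀ Q, P ≤ Q → HB g Q Q := by
    intro g hg hs
    obtain ⟨A, hA⟩ := hg.continuous.bounded_above_of_compact_support hs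
    choose A1 h1 using fun i => (smD' hg (b i)).continuous.bounded_above_of_compact_support
      (Pool.Agent.Lib.HS33.D_cs hs (b i))
    have h2 := L g A (∑ i, |A1 i|) hg hA (by positivity) fun i x => (h1 i x).trans
      ((le_abs_self _).trans (Finset.single_le_sum (f := fun i => |A1 i|)
        (fun _ _ => abs_nonneg _) (Finset.mem_univ i)))
    exact ⟨max A (2 * A + c * ∑ i, |A1 i|), fun Q hQ =>
      h2.mono ((le_max_left _ _).trans hQ) ((le_max_right _ _).trans hQ)⟩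
  have hf : ContDiff ℝ ∞ f := f.contDiff
  have hs := f.hasCompactSupport
  obtain ⟨P0, h0⟩ := key f hf hs
  choose P1 h1 using fun i => key _ (smD' hf (b i)) (Pool.Agent.Lib.HS33.D_cs hs (b i))
  choose P2 h2 using fun p : ι × ι => key _ (smD' (smD' hf (b p.1)) (b p.2))
    (Pool.Agent.Lib.HS33.D_cs (Pool.Agent.Lib.HS33.D_cs hs (b p.1)) (b p.2))
  have s1 : ∀ i, P1 i ≤ ∑ i, |P1 i| := fun i => (le_abs_self _).trans
    (Finset.single_le_sum (f := fun i => |P1 i|) (fun _ _ => abs_nonneg _) (Finset.mem_univ i))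
  have s2 : ∀ i, P2 i ≤ ∑ i, |P2 i| := fun i => (le_abs_self _).trans
    (Finset.single_le_sum (f := fun i => |P2 i|) (fun _ _ => abs_nonneg _) (Finset.mem_univ i))
  have n1 : 0 ≤ ∑ i, |P1 i| := by positivity
  have n2 : 0 ≤ ∑ i, |P2 i| := by positivity
  have n0 := abs_nonneg P0
  refine ⟨f, |P0| + ∑ i, |P1 i| + ∑ i, |P2 i|, hf, ⟨h0 _ (by linarith [le_abs_self P0]),
    fun i => ⟨h1 i _ (by linarith [s1 i]), fun j => h2 (i, j) _ (by linarith [s2 (i, j)])⟩⟩,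
    fun x => by rw [abs_of_nonneg f.nonneg]; exact f.le_one,
    fun x hx => f.zero_of_le_dist (by simpa using hx),
    fun x hx => f.eventuallyEq_one_of_mem_ball (by simpa using hx)⟩

theorem absorb {b : ι → E} {w : E → F} {c N : ℝ} (h : ∀ N, H2 b w N → H2 b w (N / 2 + c))
    (hN : H2 b w N) : H2 b w (2 * c) := by
  have h1 : ∀ k : ℕ, H2 b w ((N - 2 * c) * (1 / 2) ^ k + 2 * c) := fun k => by
    induction k with
    | zero => simpa using hN
    | succ k ih =>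
      have := h _ ih
      rwa [show ((N - 2 * c) * (1 / 2) ^ k + 2 * c) / 2 + c =
        (N - 2 * c) * (1 / 2) ^ (k + 1) + 2 * c by ring] at this
  have h2 : Tendsto (fun k : ℕ => (N - 2 * c) * (1 / 2 : ℝ) ^ k + 2 * c) atTop (𝓝 (2 * c)) := by
    simpa using ((tendsto_pow_atTop_nhds_zero_of_lt_one (r := (1 / 2 : ℝ)) (by norm_num)
      (by norm_num)).const_mul (N - 2 * c)).add_const (2 * c)
  have h3 : ∀ f : E → F, (∀ k : ℕ, HB f ((N - 2 * c) * (1 / 2) ^ k + 2 * c)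
      ((N - 2 * c) * (1 / 2) ^ k + 2 * c)) → HB f (2 * c) (2 * c) := fun f hf =>
    ⟨fun x => ge_of_tendsto' h2 fun k => (hf k).1 x,
      fun x y => ge_of_tendsto' (h2.mul_const _) fun k => (hf k).2 x y⟩
  exact ⟨h3 _ fun k => (h1 k).1, fun i => ⟨h3 _ fun k => ((h1 k).2 i).1,
    fun j => h3 _ fun k => ((h1 k).2 i).2 j⟩⟩

theorem freeze (b : Module.Basis ι ℝ E) {κ K : ℝ} (hκ : 0 < κ) (hK : 0 ≤ K) :
    ∃ C, 0 ≤ C ∧ ∀ (a : ι → ι → E → ℝ) (w : E → F) (M N N1 : ℝ),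
      (∀ ξ : ι → ℝ, κ * ∑ i, ξ i ^ 2 ≤ ∑ i, ∑ j, a i j 0 * ξ i * ξ j) → (∀ i j, HB (a i j) K K) →
      ContDiff ℝ ∞ w → H2 b w N → H1 b w N1 → (∀ i j x, ‖D (b j) (D (b i) w) x‖ ≤ N1) →
      HB (fun x => ∑ i, ∑ j, a i j x • D (b i) (D (b j) w) x) M M →
      ∀ i j y, ‖D (b i) (D (b j) w) 0 - D (b i) (D (b j) w) y‖ ≤
        (N / 4 + C * (M + N1)) * √‖y‖ := by
  obtain ⟨C2, hC2, T⟩ := t2v (F := F) b hκ K
  obtain ⟨m, hm⟩ : ∃ m : ℝ, m = Fintype.card ι := ⟨_, rfl⟩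
  have hm0 : 0 ≤ m := by rw [hm]; positivity
  obtain ⟨ρ, hρ, h1⟩ : ∃ ρ, 0 < ρ ∧ (1 + C2 * (m * (m * K))) * ρ = 1 / 4 :=
    ⟨1 / 4 / (1 + C2 * (m * (m * K))), by positivity, by field_simp⟩
  obtain ⟨φ, P, hφ, hP, b1, b2, b3⟩ := bump b (r := ρ ^ 2 / 2) (by positivity)
  have hP0 := hP.1.nonneg
  have hs : 0 < √(ρ ^ 2 / 2) := Real.sqrt_pos.2 (by positivity)
  refine ⟨2 / √(ρ ^ 2 / 2) + C2 * (2 * P + m * (m * (9 * P * K))), by positivity,
    fun a w M N N1 ha hK' hw hN hN1 hD hL i j y => ?_⟩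
  have hN0 := hN.1.nonneg
  have hN10 := hN1.1.nonneg
  have hM0 := hL.nonneg
  by_cases hy : ρ ^ 2 / 2 ≤ ‖y‖
  · have h2 := (norm_sub_le _ _).trans (add_le_add (hD j i 0) (hD j i y))
    have h3 : √(ρ ^ 2 / 2) ≤ √‖y‖ := Real.sqrt_le_sqrt hy
    calc _ ≤ 2 / √(ρ ^ 2 / 2) * N1 * √(ρ ^ 2 / 2) := by
          refine h2.trans (le_of_eq ?_)
          field_simp
          ring
      _ ≤ (N / 4 + (2 / √(ρ ^ 2 / 2) + C2 * (2 * P + m * (m * (9 * P * K)))) * (M + N1)) *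
            √‖y‖ := by
          gcongr
          have : 0 ≤ 2 / √(ρ ^ 2 / 2) * M := by positivity
          have : 0 ≤ C2 * (2 * P + m * (m * (9 * P * K))) * (M + N1) := by positivity
          nlinarith
  · have g1 : ∀ i j, HB (fun x => φ x • (a i j 0 + (-1 : ℝ) • a i j x)) (K * ρ) (3 * P * K) := by
      intro i j
      have t1 := hP.1.smul ((HB.const (E := E) (a i j 0)).add
        ((HB.const (E := E) (-1 : ℝ)).smul (hK' i j) le_rfl)) hP0
      have t2 := (hK' i j).1 0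
      refine ⟨fun x => ?_, (t1.mono le_rfl ?_).2⟩
      · show ‖φ x • (a i j 0 + (-1 : ℝ) • a i j x)‖ ≤ K * ρ
        by_cases hx : 2 * (ρ ^ 2 / 2) ≤ ‖x‖
        · rw [b2 x hx, zero_smul, norm_zero]
          positivity
        · have t3 := (hK' i j).2 0 x
          have t4 : √‖0 - x‖ ≤ ρ := by
            rw [Real.sqrt_le_left hρ.le, zero_sub, norm_neg]
            linarith
          rw [norm_smul, neg_one_smul, ← sub_eq_add_neg]
          calc _ ≤ 1 * (K * ρ) := by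
                gcongr
                · exact b1 x
                · exact t3.trans (by gcongr)
            _ = _ := one_mul _
      · simp only [norm_neg, norm_one]
        nlinarith [mul_le_mul_of_nonneg_left t2 hP0]
    have g2 : ∀ i j, HB (D (b i) (D (b j) w)) N1 N := fun i j => ⟨hD j i, ((hN.2 j).2 i).2⟩
    have g3 : ∀ i j, HB (fun x => (φ x • (a i j 0 + (-1 : ℝ) • a i j x)) • D (b i) (D (b j) w) x +
        a i j 0 • (D (b i) φ x • D (b j) w x + (D (b j) φ x • D (b i) w x +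
          D (b i) (D (b j) φ) x • w x))) (K * ρ * N1 + K * (3 * P * N1))
        (K * ρ * N + 9 * P * K * N1) := by
      intro i j
      have t1 := (g1 i j).smul (g2 i j) (by positivity)
      have t2 := (((hP.2 i).1.smul (hN1.2 j) hP0).add (((hP.2 j).1.smul (hN1.2 i) hP0).add
        (((hP.2 j).2 i).smul hN1.1 hP0)))
      have t3 := ((HB.const (E := E) (a i j 0)).mono ((hK' i j).1 0) le_rfl).smul t2 le_rfl
      exact (t1.add t3).mono (le_of_eq (by ring)) (le_of_eq (by ring))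
    have g4 := (hP.1.smul hL hP0).add (HB.sum Finset.univ fun i _ => HB.sum Finset.univ
      fun j _ => g3 i j)
    simp only [Finset.sum_const, Finset.card_univ, nsmul_eq_mul, ← hm] at g4
    have g5 := T (fun i j => a i j 0) (fun x => φ x • w x)
      (P * M + P * M + m * (m * (K * ρ * N + 9 * P * K * N1))) (P * N1) ha
      (fun i j => (hK' i j).1 0) (hφ.smul hw) (hP.1.smul hN1.1 hP0).1 (by positivity)
      (fun x z => by
        have g7 := g4.2 x z
        beta_reduce at g7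
        refine le_trans (le_of_eq ?_) g7
        have e : ∀ x, ∑ i, ∑ j, a i j 0 • D (b i) (D (b j) fun x => φ x • w x) x =
            φ x • ∑ i, ∑ j, a i j x • D (b i) (D (b j) w) x + ∑ i, ∑ j,
              ((φ x • (a i j 0 + (-1 : ℝ) • a i j x)) • D (b i) (D (b j) w) x +
                a i j 0 • (D (b i) φ x • D (b j) w x + (D (b j) φ x • D (b i) w x +
                  D (b i) (D (b j) φ) x • w x))) := fun x => by
          simp only [Finset.smul_sum, ← Finset.sum_add_distrib]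
          refine Finset.sum_congr rfl fun i _ => Finset.sum_congr rfl fun j _ => ?_
          rw [DD_smul hφ hw]
          simp only [smul_eq_mul]
          module
        rw [e, e]) i j 0 y
    have g6 : ∀ z : E, ‖z‖ < ρ ^ 2 / 2 →
        D (b i) (D (b j) fun x => φ x • w x) z = D (b i) (D (b j) w) z := fun z hz => by
      refine (D_congr _ (D_congr _ ?_)).eq_of_nhds
      filter_upwards [b3 z hz] with x hx
      rw [hx, Pi.one_apply, one_smul]
    rw [g6 0 (by rw [norm_zero]; positivity), g6 y (not_le.1 hy), zero_sub, norm_neg y] at g5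
    refine g5.trans (mul_le_mul_of_nonneg_right ?_ (Real.sqrt_nonneg _))
    have q1 : C2 * (m * (m * K)) * ρ * N ≤ N / 4 := by nlinarith [mul_nonneg hρ.le hN0]
    have q2 : 0 ≤ 2 / √(ρ ^ 2 / 2) * (M + N1) := by positivity
    have q3 : 0 ≤ C2 * (2 * P) * N1 := by positivity
    have q4 : 0 ≤ C2 * (m * (m * (9 * P * K))) * M := by positivity
    nlinarith

/-- the global estimate; lower order terms are allowed through the factor `K * N1` -/
theorem v0 (b : Module.Basis ι ℝ E) {κ K : ℝ} (hκ : 0 < κ) (hK : 0 ≤ K) :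
    ∃ C, 0 ≤ C ∧ ∀ (a : ι → ι → E → ℝ) (w : E → F) (M A N : ℝ),
      (∀ x (ξ : ι → ℝ), κ * ∑ i, ξ i ^ 2 ≤ ∑ i, ∑ j, a i j x * ξ i * ξ j) →
      (∀ i j, HB (a i j) K K) → ContDiff ℝ ∞ w → H2 b w N → (∀ x, ‖w x‖ ≤ A) → 0 ≤ M →
      (∀ N1, H1 b w N1 →
        HB (fun x => ∑ i, ∑ j, a i j x • D (b i) (D (b j) w) x) (M + K * N1) (M + K * N1)) →
      H2 b w (C * (M + A)) := by
  obtain ⟨C, hC, Z⟩ := freeze (F := F) b hκ hK
  obtain ⟨ε, hε, h1⟩ : ∃ ε, 0 < ε ∧ (1 + C * (K + 1)) * ε = 1 / 4 :=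
    ⟨1 / 4 / (1 + C * (K + 1)), by positivity, by field_simp⟩
  obtain ⟨C1, hC1, I⟩ := intp (F := F) b hε
  refine ⟨2 * (C + (1 + C * (K + 1)) * C1), by positivity,
    fun a w M A N ha hK' hw hN hA hM hL => ?_⟩
  have hA0 : 0 ≤ A := (norm_nonneg _).trans (hA 0)
  rw [mul_assoc]
  refine absorb (fun N hN => ?_) hN
  have hN0 := hN.1.nonneg
  obtain ⟨i1, i2⟩ := I w A N hw hA hN
  obtain ⟨N1, e1⟩ : ∃ N1, N1 = ε * N + C1 * A := ⟨_, rfl⟩
  rw [← e1] at i1 i2
  have hN1 := i1.1.nonneg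
  have q0 : (1 + C * (K + 1)) * N1 = N / 4 + (1 + C * (K + 1)) * C1 * A := by
    rw [e1, mul_add, ← mul_assoc, h1]; ring
  have q1 : 0 ≤ C * (K + 1) * N1 := by positivity
  have q2 : 0 ≤ C * M := by positivity
  have q3 : 0 ≤ C * A := by positivity
  have q4 : 0 ≤ (1 + C * (K + 1)) * C1 * M := by positivity
  have le1 : N1 ≤ N / 2 + (C + (1 + C * (K + 1)) * C1) * (M + A) := by nlinarith
  refine ⟨i1.1.mono le1 le1, fun i => ⟨(i1.2 i).mono le1 le1,
    fun j => ⟨fun x => (i2 i j x).trans le1, fun x y => ?_⟩⟩⟩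
  have z := Z (fun i j z => a i j (z + x)) (fun z => w (z + x)) (M + K * N1) N N1
    (fun ξ => ha _ ξ) (fun i j => (hK' i j).shift x) (hw.comp (contDiff_id.add contDiff_const))
    ⟨hN.1.shift x, fun i => by
      simp only [D_shift]
      exact ⟨(hN.2 i).1.shift x, fun j => ((hN.2 i).2 j).shift x⟩⟩
    ⟨i1.1.shift x, fun i => by
      simp only [D_shift]
      exact (i1.2 i).shift x⟩
    (fun i j z => by simp only [D_shift]; exact i2 i j _)
    (by simp only [D_shift]; exact (hL N1 i1).shift x) j i (y - x)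
  simp only [D_shift, zero_add, sub_add_cancel] at z
  rw [norm_sub_rev y x] at z
  refine z.trans (mul_le_mul_of_nonneg_right ?_ (Real.sqrt_nonneg _))
  nlinarith

end Pool.Agent.HS92
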