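import Pool.Agent.Lib.HS33.Trud
import Pool.Agent.Lib.HS92.Maxp

/-! The flat estimate for constant coefficients, uniform in the ellipticity bounds. -/

noncomputable section

namespace Pool.Agent.HS92

open Set Filter Topology
open scoped ContDiff MatrixOrder
open Pool.Agent.Lib.HS33 (Hol lap schauder)

variable {E : Type} [NormedAddCommGroup E] [NormedSpace ℝ E] [FiniteDimensional ℝ E]
  {ι : Type} [Fintype ι]

theorem root (a : ι → ι → ℝ) {κ K : ℝ} (hκ : 0 < κ)
    (ha : ∀ ξ : ι → ℝ, κ * ∑ i, ξ i ^ 2 ≤ ∑ i, ∑ j, a i j * ξ i * ξ j) (hK : ∀ i j, |a i j| ≤ K) :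
    ∃ S R : ι → ι → ℝ, (∀ i j, a i j + a j i = 2 * ∑ k, S k i * S k j) ∧
      (∀ (i : ι) (f : ι → E), ∑ k, R i k • ∑ j, S k j • f j = f i) ∧
      (∀ i j, |S i j| ≤ 1 + |K|) ∧ ∀ i j, |R i j| ≤ 1 + κ⁻¹ := by
  classical
  have e : ∀ ξ : ι → ℝ, star ξ ⬝ᵥ (Matrix.of fun i j => (a i j + a j i) / 2).mulVec ξ =
      ∑ i, ∑ j, a i j * ξ i * ξ j := fun ξ => by
    have : star ξ ⬝ᵥ (Matrix.of fun i j => (a i j + a j i) / 2).mulVec ξ =
        (∑ i, ∑ j, a i j * ξ i * ξ j + ∑ i, ∑ j, a j i * ξ j * ξ i) / 2 := by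
      simp only [dotProduct, Matrix.mulVec, Matrix.of_apply, star_trivial, Finset.mul_sum,
        ← Finset.sum_add_distrib, Finset.sum_div]
      exact Finset.sum_congr rfl fun i _ => Finset.sum_congr rfl fun j _ => by ring
    rw [this, Finset.sum_comm (f := fun i j => a j i * ξ j * ξ i)]
    ring
  have hp : (Matrix.of fun i j => (a i j + a j i) / 2).PosSemidef := by
    rw [Matrix.posSemidef_iff_dotProduct_mulVec]
    refine ⟨?_, fun ξ => ?_⟩
    · ext i j
      simp [add_comm]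
    · rw [e]
      exact le_trans (by positivity) (ha ξ)
  obtain ⟨S, hS⟩ := CStarAlgebra.nonneg_iff_eq_star_mul_self.mp hp.nonneg
  have hS' : ∀ i j, (a i j + a j i) / 2 = ∑ k, S k i * S k j := fun i j => by
    have := congrFun (congrFun hS i) j
    simpa [Matrix.mul_apply] using this
  have q : ∀ ξ : ι → ℝ, κ * ∑ i, ξ i ^ 2 ≤ ∑ k, S.mulVec ξ k ^ 2 := fun ξ => by
    refine (ha ξ).trans (le_of_eq ?_)
    rw [← e, hS, ← Matrix.mulVec_mulVec, Matrix.dotProduct_mulVec, Matrix.star_eq_conjTranspose,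
      ← Matrix.star_mulVec]
    simp [dotProduct, sq]
  have sq1 : ∀ t c : ℝ, t ^ 2 ≤ c → |t| ≤ 1 + c := fun t c h => by
    have := sq_abs t
    nlinarith [abs_nonneg t, sq_nonneg (|t| - 1)]
  have hu : IsUnit S := by
    rw [← Matrix.mulVec_injective_iff_isUnit]
    intro ξ η h
    have h1 := q (ξ - η)
    rw [Matrix.mulVec_sub, h, sub_self] at h1
    have h2 : ∑ i, (ξ - η) i ^ 2 ≤ 0 := by
      simp only [Pi.zero_apply, ne_eq, OfNat.ofNat_ne_zero, not_false_eq_true, zero_pow,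
        Finset.sum_const_zero] at h1
      exact nonpos_of_mul_nonpos_right h1 hκ
    have h3 := (Finset.sum_eq_zero_iff_of_nonneg fun i _ => sq_nonneg ((ξ - η) i)).1
      (le_antisymm h2 (Finset.sum_nonneg fun i _ => sq_nonneg _))
    ext i
    exact sub_eq_zero.1 (pow_eq_zero_iff two_ne_zero |>.1 (h3 i (Finset.mem_univ i)))
  have hd := (Matrix.isUnit_iff_isUnit_det S).1 hu
  refine ⟨fun i j => S i j, fun i j => S⁻¹ i j, fun i j => by rw [← hS']; ring, fun i f => ?_,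
    fun i j => ?_, fun i j => ?_⟩
  · simp only [Finset.smul_sum, smul_smul]
    rw [Finset.sum_comm]
    simp only [← Finset.sum_smul, ← Matrix.mul_apply, Matrix.nonsing_inv_mul S hd]
    simp [Matrix.one_apply]
  · refine sq1 _ _ ?_
    have h1 : S i j ^ 2 ≤ ∑ k, S k j * S k j := by
      rw [sq]
      exact Finset.single_le_sum (f := fun k => S k j * S k j) (fun k _ => mul_self_nonneg _)
        (Finset.mem_univ i)
    have h2 := (le_abs_self _).trans ((hK j j).trans (le_abs_self K))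
    rw [← hS'] at h1
    linarith
  · refine sq1 _ _ ?_
    have h1 := q fun i => S⁻¹ i j
    have h2 : ∀ k, S.mulVec (fun i => S⁻¹ i j) k = (1 : Matrix ι ι ℝ) k j := fun k => by
      rw [← Matrix.mul_nonsing_inv S hd]
      rfl
    have h3 : ∑ k, S.mulVec (fun i => S⁻¹ i j) k ^ 2 = 1 := by
      simp [h2, Matrix.one_apply]
    have h4 : S⁻¹ i j ^ 2 ≤ ∑ k, S⁻¹ k j ^ 2 :=
      Finset.single_le_sum (f := fun k => S⁻¹ k j ^ 2) (fun k _ => sq_nonneg _) (Finset.mem_univ i)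
    rw [h3] at h1
    show S⁻¹ i j ^ 2 ≤ κ⁻¹
    rw [← one_div κ, le_div_iff₀ hκ]
    nlinarith

theorem lin_bd (b : Module.Basis ι ℝ E) : ∃ c, 0 ≤ c ∧ ∀ (S : ι → ι → ℝ) (R : ℝ), 0 ≤ R →
    (∀ i j, |S i j| ≤ R) → ∃ T : E →L[ℝ] E, (∀ k, T (b k) = ∑ i, S k i • b i) ∧
      ∀ x, ‖T x‖ ≤ c * R * ‖x‖ := by
  classical
  let co : ι → E →L[ℝ] ℝ := fun i => LinearMap.toContinuousLinearMap (b.coord i)
  refine ⟨∑ k, ∑ i, ‖co k‖ * ‖b i‖, by positivity, fun S R hR hS => ?_⟩
  refine ⟨∑ k, (co k).smulRight (∑ i, S k i • b i), fun k => ?_, fun x => ?_⟩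
  · simp [co, Finsupp.single_apply]
  · simp only [_root_.sum_apply, ContinuousLinearMap.smulRight_apply, Finset.sum_mul]
    refine (norm_sum_le _ _).trans (Finset.sum_le_sum fun k _ => ?_)
    rw [Finset.smul_sum]
    refine (norm_sum_le _ _).trans (Finset.sum_le_sum fun i _ => ?_)
    rw [norm_smul, norm_smul, Real.norm_eq_abs (S k i)]
    calc ‖co k x‖ * (|S k i| * ‖b i‖) ≤ ‖co k‖ * ‖x‖ * (R * ‖b i‖) := by
          gcongr
          · exact (co k).le_opNorm x
          · exact hS k i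
      _ = _ := by ring

omit [FiniteDimensional ℝ E] in
theorem hol_comp {f : E → ℝ} {M c : ℝ} (hM : 0 ≤ M) (hc : 0 ≤ c) (h : Hol f M) (T : E →L[ℝ] E)
    (hT : ∀ x, ‖T x‖ ≤ c * ‖x‖) : Hol (fun x => f (T x)) (√c * M) := fun x y => by
  refine (h _ _).trans ?_
  rw [← map_sub, mul_comm (√c) M, mul_assoc, ← Real.sqrt_mul hc]
  gcongr
  exact hT _

omit [FiniteDimensional ℝ E] in
theorem D_comp {F : Type} [NormedAddCommGroup F] [NormedSpace ℝ F] {w : E → F}
    (hw : ContDiff ℝ ∞ w) (T : E →L[ℝ] E) (u : E) :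
    D u (fun x => w (T x)) = fun x => D (T u) w (T x) := by
  funext x
  have := ((hw.differentiable (by simp)) (T x)).hasFDerivAt.comp x T.hasFDerivAt
  exact congrArg (fun L : E →L[ℝ] F => L u) this.fderiv

omit [FiniteDimensional ℝ E] in
theorem DD_sum {w : E → ℝ} {x : E} (hw : ContDiffAt ℝ ∞ w x) (p q : ι → ℝ) (u : ι → E) :
    D (∑ i, p i • u i) (D (∑ j, q j • u j) w) x = ∑ i, ∑ j, p i * q j * D (u i) (D (u j) w) x := by
  rw [DD_eq _ _ hw]
  simp only [map_sum, map_smul, _root_.sum_apply, _root_.smul_apply, smul_eq_mul, Finset.mul_sum]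
  rw [Finset.sum_comm]
  exact Finset.sum_congr rfl fun i _ => Finset.sum_congr rfl fun j _ => by
    rw [DD_eq _ _ hw]; ring

/-- flat estimate, uniform over constant elliptic coefficients -/
theorem t2 (b : Module.Basis ι ℝ E) {κ : ℝ} (hκ : 0 < κ) (K : ℝ) :
    ∃ C, 0 ≤ C ∧ ∀ (a : ι → ι → ℝ) (w : E → ℝ) (M B : ℝ),
      (∀ ξ : ι → ℝ, κ * ∑ i, ξ i ^ 2 ≤ ∑ i, ∑ j, a i j * ξ i * ξ j) → (∀ i j, |a i j| ≤ K) →
      ContDiff ℝ ∞ w → (∀ x, |w x| ≤ B) → 0 ≤ M →
      Hol (fun x => ∑ i, ∑ j, a i j * D (b i) (D (b j) w) x) M →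
      ∀ i j, Hol (D (b i) (D (b j) w)) (C * M) := by
  obtain ⟨C, hC, H⟩ := schauder b
  obtain ⟨c, hc, L⟩ := lin_bd b
  refine ⟨∑ _k : ι, ∑ _l : ι, (1 + κ⁻¹) * (1 + κ⁻¹) * (√(c * (1 + κ⁻¹)) * (C * √(c * (1 + |K|)))),
    by positivity, fun a w M B ha hK hw hB hM hH i j => ?_⟩
  obtain ⟨S, R, h1, h2, h3, h4⟩ := root (E := E) a hκ ha hK
  obtain ⟨T, hT, hTn⟩ := L S _ (by positivity) h3
  obtain ⟨T', hT', hTn'⟩ := L R _ (by positivity) h4
  have hTT : ∀ x, T (T' x) = x := fun x => by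
    have : (T.comp T').toLinearMap = LinearMap.id := b.ext fun k => by
      show T (T' (b k)) = b k
      rw [hT', map_sum]
      simp only [map_smul, hT]
      exact h2 k b
    exact LinearMap.congr_fun this x
  have hw' : ContDiff ℝ ∞ fun x => w (T x) := hw.comp T.contDiff
  have hD : ∀ k l, D (b k) (D (b l) fun x => w (T x)) =
      fun x => D (T (b k)) (D (T (b l)) w) (T x) := fun k l => by
    rw [D_comp hw, D_comp (w := D (T (b l)) w) (Pool.Agent.Lib.HS33.D_smooth hw _)]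
  have hl : lap b (fun x => w (T x)) =
      fun x => ∑ i, ∑ j, a i j * D (b i) (D (b j) w) (T x) := by
    funext x
    show ∑ k, D (b k) (D (b k) fun x => w (T x)) x = _
    simp only [hD, hT, DD_sum hw.contDiffAt]
    rw [Finset.sum_comm]
    simp only [Finset.sum_comm (s := Finset.univ) (t := Finset.univ)
      (f := fun k j => S k _ * S k j * D (b _) (D (b j) w) (T x)), ← Finset.sum_mul]
    have e : ∀ i j, ∑ k, S k i * S k j = (a i j + a j i) / 2 := fun i j => by rw [h1]; ring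
    simp only [e, add_div, add_mul, Finset.sum_add_distrib]
    rw [Finset.sum_comm (f := fun i j => a j i / 2 * D (b i) (D (b j) w) (T x)),
      ← Finset.sum_add_distrib]
    refine Finset.sum_congr rfl fun i _ => ?_
    rw [← Finset.sum_add_distrib]
    refine Finset.sum_congr rfl fun j _ => ?_
    rw [DD_comm (b j) (b i) hw.contDiffAt]
    ring
  have h5 := H (fun x => w (T x)) (√(c * (1 + |K|)) * M) B hw' (fun x => hB _) (by positivity)
    (by rw [hl]; exact hol_comp hM (by positivity) hH T hTn)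
  have h6 : ∀ k l, Hol (D (T (b k)) (D (T (b l)) w))
      (√(c * (1 + κ⁻¹)) * (C * (√(c * (1 + |K|)) * M))) := fun k l => by
    have h7 := hol_comp (by positivity) (by positivity) (h5 k l) T' hTn'
    have e : (fun x => Pool.Agent.Lib.HS33.D (b k) (Pool.Agent.Lib.HS33.D (b l) fun x => w (T x))
        (T' x)) = D (T (b k)) (D (T (b l)) w) := by
      funext x
      have := congrFun (hD k l) (T' x)
      rw [hTT] at this
      exact this
    rwa [e] at h7
  have h8 : ∀ x, D (b i) (D (b j) w) x =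
      ∑ k, ∑ l, R i k * R j l * D (T (b k)) (D (T (b l)) w) x := fun x => by
    rw [← DD_sum hw.contDiffAt (R i) (R j) fun k => T (b k)]
    simp only [hT, h2]
  intro x y
  rw [h8, h8, ← Finset.sum_sub_distrib, Finset.sum_mul, Finset.sum_mul]
  refine (Finset.abs_sum_le_sum_abs _ _).trans (Finset.sum_le_sum fun k _ => ?_)
  rw [← Finset.sum_sub_distrib, Finset.sum_mul, Finset.sum_mul]
  refine (Finset.abs_sum_le_sum_abs _ _).trans (Finset.sum_le_sum fun l _ => ?_)
  rw [← mul_sub, abs_mul, abs_mul]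
  calc _ ≤ (1 + κ⁻¹) * (1 + κ⁻¹) *
        (√(c * (1 + κ⁻¹)) * (C * (√(c * (1 + |K|)) * M)) * √‖x - y‖) := by
        gcongr
        · exact h4 i k
        · exact h4 j l
        · exact h6 k l x y
    _ = _ := by ring

end Pool.Agent.HS92
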